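import Mathlib

set_option autoImplicit false

/-!
# The subsets of a finite set are covered by chains indexed by the middle layer
-/

open Finset

namespace Pool.Agent.Helper272_BZ

variable {α : Type*} [DecidableEq α]

/-- `bot A` is the least member of the chain of `A`, in a partition of the subsets of `G` into
symmetric chains. -/
structure Sym (G : Finset α) (bot : Finset α → Finset α) : Prop where
  sub : ∀ A ⊆ G, bot A ⊆ A
  hi : ∀ A ⊆ G, A.card + (bot A).card ≤ G.card
  chain : ∀ A ⊆ G, ∀ B ⊆ G, bot A = bot B → A ⊆ B ∨ B ⊆ A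
  ex : ∀ A ⊆ G, ∀ t, (bot A).card ≤ t → t + (bot A).card ≤ G.card →
    ∃ B ⊆ G, bot B = bot A ∧ B.card = t

theorem exists_sym (G : Finset α) : ∃ bot : Finset α → Finset α, Sym G bot := by
  classical
  induction G using Finset.induction_on with
  | empty =>
    refine ⟨fun A => A, fun A _ => Subset.rfl, ?_, ?_, ?_⟩
    · intro A hA
      rw [subset_empty.1 hA]
      simp
    · intro A hA B hB _
      rw [subset_empty.1 hA, subset_empty.1 hB]
      exact Or.inl Subset.rfl
    · intro A hA t h1 h2
      rw [subset_empty.1 hA] at h1 h2 ⊢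
      refine ⟨∅, Subset.rfl, rfl, ?_⟩
      simp at h2 ⊢
      omega
  | insert a G ha ih =>
    obtain ⟨bot, h⟩ := ih
    let bot' : Finset α → Finset α := fun A =>
      if a ∉ A then bot A else
        if (A.erase a).card + (bot (A.erase a)).card = G.card then bot (A.erase a)
        else insert a (bot (A.erase a))
    have e1 : ∀ A, a ∉ A → bot' A = bot A := fun A hA => by simp only [bot', hA, not_false_iff, if_true]
    have e2 : ∀ A, a ∉ A → A.card + (bot A).card = G.card → bot' (insert a A) = bot A := by
      intro A hA hc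
      simp only [bot', mem_insert_self, not_true, if_false, erase_insert hA, hc, if_true]
    have e3 : ∀ A, a ∉ A → A.card + (bot A).card ≠ G.card →
        bot' (insert a A) = insert a (bot A) := by
      intro A hA hc
      simp only [bot', mem_insert_self, not_true, if_false, erase_insert hA, hc]
    have hG : ∀ A ⊆ G, a ∉ A := fun A hA haA => ha (hA haA)
    -- every subset is `A` or `insert a A`
    have hcase : ∀ B ⊆ insert a G, (B ⊆ G) ∨ ∃ A ⊆ G, B = insert a A := by
      intro B hB
      by_cases haB : a ∈ B
      · right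
        refine ⟨B.erase a, ?_, (insert_erase haB).symm⟩
        intro x hx
        rw [mem_erase] at hx
        exact (mem_insert.1 (hB hx.2)).resolve_left hx.1
      · left
        intro x hx
        refine (mem_insert.1 (hB hx)).resolve_left ?_
        rintro rfl
        exact haB hx
    have hcard : (insert a G).card = G.card + 1 := card_insert_of_notMem ha
    have hbot : ∀ A ⊆ G, a ∉ bot A := fun A hA h1 => hG A hA (h.sub A hA h1)
    refine ⟨bot', ?_, ?_, ?_, ?_⟩
    · intro B hB
      rcases hcase B hB with hBG | ⟨A, hA, rfl⟩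
      · rw [e1 B (hG B hBG)]
        exact h.sub B hBG
      · by_cases hc : A.card + (bot A).card = G.card
        · rw [e2 A (hG A hA) hc]
          exact (h.sub A hA).trans (subset_insert _ _)
        · rw [e3 A (hG A hA) hc]
          exact insert_subset_insert _ (h.sub A hA)
    · intro B hB
      rw [hcard]
      rcases hcase B hB with hBG | ⟨A, hA, rfl⟩
      · rw [e1 B (hG B hBG)]
        have := h.hi B hBG
        omega
      · have h1 := h.hi A hA
        rw [card_insert_of_notMem (hG A hA)]
        by_cases hc : A.card + (bot A).card = G.card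
        · rw [e2 A (hG A hA) hc]
          omega
        · rw [e3 A (hG A hA) hc, card_insert_of_notMem (hbot A hA)]
          omega
    · intro B hB C hC hBC
      rcases hcase B hB with hBG | ⟨A, hA, rfl⟩
      · rcases hcase C hC with hCG | ⟨D, hD, rfl⟩
        · rw [e1 B (hG B hBG), e1 C (hG C hCG)] at hBC
          exact h.chain B hBG C hCG hBC
        · rw [e1 B (hG B hBG)] at hBC
          by_cases hc : D.card + (bot D).card = G.card
          · rw [e2 D (hG D hD) hc] at hBC
            left
            have h1 := h.hi B hBG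
            rw [hBC] at h1
            rcases h.chain B hBG D hD hBC with h2 | h2
            · exact h2.trans (subset_insert _ _)
            · have : D = B := eq_of_subset_of_card_le h2 (by omega)
              rw [this]
              exact subset_insert _ _
          · rw [e3 D (hG D hD) hc] at hBC
            exfalso
            apply hbot B hBG
            rw [hBC]
            exact mem_insert_self _ _
      · rcases hcase C hC with hCG | ⟨D, hD, rfl⟩
        · rw [e1 C (hG C hCG)] at hBC
          by_cases hc : A.card + (bot A).card = G.card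
          · rw [e2 A (hG A hA) hc] at hBC
            right
            have h1 := h.hi C hCG
            rw [← hBC] at h1
            rcases h.chain A hA C hCG hBC with h2 | h2
            · have : A = C := eq_of_subset_of_card_le h2 (by omega)
              rw [← this]
              exact subset_insert _ _
            · exact h2.trans (subset_insert _ _)
          · rw [e3 A (hG A hA) hc] at hBC
            exfalso
            apply hbot C hCG
            rw [← hBC]
            exact mem_insert_self _ _
        · by_cases hcA : A.card + (bot A).card = G.card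
          · by_cases hcD : D.card + (bot D).card = G.card
            · rw [e2 A (hG A hA) hcA, e2 D (hG D hD) hcD] at hBC
              rcases h.chain A hA D hD hBC with h2 | h2
              · exact Or.inl (insert_subset_insert _ h2)
              · exact Or.inr (insert_subset_insert _ h2)
            · rw [e2 A (hG A hA) hcA, e3 D (hG D hD) hcD] at hBC
              exfalso
              apply hbot A hA
              rw [hBC]
              exact mem_insert_self _ _
          · by_cases hcD : D.card + (bot D).card = G.card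
            · rw [e3 A (hG A hA) hcA, e2 D (hG D hD) hcD] at hBC
              exfalso
              apply hbot D hD
              rw [← hBC]
              exact mem_insert_self _ _
            · rw [e3 A (hG A hA) hcA, e3 D (hG D hD) hcD] at hBC
              have h3 : bot A = bot D := by
                have := congrArg (fun s => erase s a) hBC
                simpa only [erase_insert (hbot A hA), erase_insert (hbot D hD)] using this
              rcases h.chain A hA D hD h3 with h2 | h2
              · exact Or.inl (insert_subset_insert _ h2)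
              · exact Or.inr (insert_subset_insert _ h2)
    · -- existence of all sizes
      have aux : ∀ C ⊆ G, ∀ t, (bot C).card ≤ t → t + (bot C).card ≤ G.card + 1 →
          ∃ B ⊆ insert a G, bot' B = bot C ∧ B.card = t := by
        intro C hC t h1 h2
        have h4 := h.hi C hC
        have h5 := card_le_card (h.sub C hC)
        rcases Nat.lt_or_ge (t + (bot C).card) (G.card + 1) with h3 | h3
        · obtain ⟨B, hB, hB1, hB2⟩ := h.ex C hC t h1 (by omega)
          exact ⟨B, hB.trans (subset_insert _ _), by rw [e1 B (hG B hB), hB1], hB2⟩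
        · obtain ⟨B, hB, hB1, hB2⟩ := h.ex C hC (t - 1) (by omega) (by omega)
          refine ⟨insert a B, insert_subset_insert _ hB, ?_, ?_⟩
          · rw [e2 B (hG B hB) (by rw [hB1, hB2]; omega), hB1]
          · rw [card_insert_of_notMem (hG B hB), hB2]
            omega
      intro B hB t h1 h2
      rw [hcard] at h2
      rcases hcase B hB with hBG | ⟨A, hA, rfl⟩
      · rw [e1 B (hG B hBG)] at h1 h2 ⊢
        exact aux B hBG t h1 h2
      · by_cases hc : A.card + (bot A).card = G.card
        · rw [e2 A (hG A hA) hc] at h1 h2 ⊢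
          exact aux A hA t h1 h2
        · rw [e3 A (hG A hA) hc] at h1 h2 ⊢
          rw [card_insert_of_notMem (hbot A hA)] at h1 h2
          obtain ⟨D, hD, hD1, hD2⟩ := h.ex A hA (t - 1) (by omega) (by omega)
          refine ⟨insert a D, insert_subset_insert _ hD, ?_, ?_⟩
          · rw [e3 D (hG D hD) (by rw [hD1, hD2]; omega), hD1]
          · rw [card_insert_of_notMem (hG D hD), hD2]
            omega

/-- The subsets of `G` are partitioned into chains indexed by the subsets of size `⌊|G| / 2⌋`. -/
theorem exists_mid (G : Finset α) : ∃ m : Finset α → Finset α,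
    (∀ A ⊆ G, m A ∈ powersetCard (G.card / 2) G) ∧
    ∀ A ⊆ G, ∀ B ⊆ G, m A = m B → A ⊆ B ∨ B ⊆ A := by
  classical
  obtain ⟨bot, h⟩ := exists_sym G
  have h1 : ∀ A : Finset α, ∃ B : Finset α, A ⊆ G → B ⊆ G ∧ bot B = bot A ∧ B.card = G.card / 2 := by
    intro A
    by_cases hA : A ⊆ G
    · have h2 := h.hi A hA
      have h3 := card_le_card (h.sub A hA)
      obtain ⟨B, hB, hB1, hB2⟩ := h.ex A hA (G.card / 2) (by omega) (by omega)
      exact ⟨B, fun _ => ⟨hB, hB1, hB2⟩⟩
    · exact ⟨∅, fun h => absurd h hA⟩
  choose m hm using h1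
  refine ⟨m, fun A hA => ?_, fun A hA B hB hAB => ?_⟩
  · rw [mem_powersetCard]
    exact ⟨(hm A hA).1, (hm A hA).2.2⟩
  · apply h.chain A hA B hB
    rw [← (hm A hA).2.1, ← (hm B hB).2.1, hAB]

/-- the number of members of the chain of `M` which contain `a` -/
def cnt (G : Finset α) (m : Finset α → Finset α) (M : Finset α) (a : α) : ℕ :=
  (G.powerset.filter fun A => m A = M ∧ a ∈ A).card

theorem cnt_pos {G : Finset α} {m : Finset α → Finset α} {S : Finset α} (hS : S ⊆ G) {j : α}
    (hj : j ∈ S) : 0 < cnt G m (m S) j := by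
  apply card_pos.2
  exact ⟨S, mem_filter.2 ⟨mem_powerset.2 hS, rfl, hj⟩⟩

theorem cnt_lt {G : Finset α} {m : Finset α → Finset α}
    (hm : ∀ A ⊆ G, ∀ B ⊆ G, m A = m B → A ⊆ B ∨ B ⊆ A) {S : Finset α} (hS : S ⊆ G) {i j : α}
    (hi : i ∉ S) (hj : j ∈ S) : cnt G m (m S) i < cnt G m (m S) j := by
  apply card_lt_card
  rw [ssubset_iff_of_subset]
  · refine ⟨S, mem_filter.2 ⟨mem_powerset.2 hS, rfl, hj⟩, ?_⟩
    intro h
    exact hi (mem_filter.1 h).2.2
  · intro A hA
    obtain ⟨h1, h2, h3⟩ := mem_filter.1 hA
    refine mem_filter.2 ⟨h1, h2, ?_⟩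
    rcases hm A (mem_powerset.1 h1) S hS h2 with h4 | h4
    · exact absurd (h4 h3) hi
    · exact h4 hj

/-- the sign of the pairing with the numbers `cnt` -/
theorem pairing {G : Finset α} {m : Finset α → Finset α}
    (hm : ∀ A ⊆ G, ∀ B ⊆ G, m A = m B → A ⊆ B ∨ B ⊆ A) {S : Finset α} (hS : S ⊆ G) {Y : α → ℝ}
    (hY : ∑ a ∈ G, Y a = 0) (h1 : ∀ a ∈ S, Y a ≤ 0) (h2 : ∀ a ∈ G, a ∉ S → 0 ≤ Y a) :
    ∑ a ∈ G, (cnt G m (m S) a : ℝ) * Y a ≤ 0 ∧
      ((∃ a ∈ G, Y a ≠ 0) → ∑ a ∈ G, (cnt G m (m S) a : ℝ) * Y a < 0) := by
  set θ : ℝ := ((G \ S).sup (cnt G m (m S)) : ℕ) + 1 / 2 with hθ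
  have h3 : ∑ a ∈ G, (cnt G m (m S) a : ℝ) * Y a = ∑ a ∈ G, ((cnt G m (m S) a : ℝ) - θ) * Y a := by
    simp only [sub_mul, sum_sub_distrib, ← mul_sum, hY, mul_zero, sub_zero]
  have h4 : ∀ a ∈ S, θ < cnt G m (m S) a := by
    intro a ha
    have h5 : (G \ S).sup (cnt G m (m S)) < cnt G m (m S) a := by
      rw [Finset.sup_lt_iff (by exact cnt_pos hS ha)]
      intro i hi
      exact cnt_lt hm hS (mem_sdiff.1 hi).2 ha
    have h6 : (((G \ S).sup (cnt G m (m S)) : ℕ) : ℝ) + 1 ≤ cnt G m (m S) a := by exact_mod_cast h5
    rw [hθ]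
    linarith
  have h5 : ∀ a ∈ G, a ∉ S → (cnt G m (m S) a : ℝ) < θ := by
    intro a ha haS
    have h6 : cnt G m (m S) a ≤ (G \ S).sup (cnt G m (m S)) :=
      Finset.le_sup (f := cnt G m (m S)) (mem_sdiff.2 ⟨ha, haS⟩)
    have h7 : (cnt G m (m S) a : ℝ) ≤ (((G \ S).sup (cnt G m (m S)) : ℕ) : ℝ) := by exact_mod_cast h6
    rw [hθ]
    linarith
  have h6 : ∀ a ∈ G, ((cnt G m (m S) a : ℝ) - θ) * Y a ≤ 0 := by
    intro a ha
    by_cases haS : a ∈ S
    · exact mul_nonpos_of_nonneg_of_nonpos (by linarith [h4 a haS]) (h1 a haS)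
    · exact mul_nonpos_of_nonpos_of_nonneg (by linarith [h5 a ha haS]) (h2 a ha haS)
  rw [h3]
  refine ⟨sum_nonpos h6, ?_⟩
  rintro ⟨a, ha, hne⟩
  apply sum_neg' h6 ⟨a, ha, ?_⟩
  by_cases haS : a ∈ S
  · exact mul_neg_of_pos_of_neg (by linarith [h4 a haS]) (lt_of_le_of_ne (h1 a haS) hne)
  · exact mul_neg_of_neg_of_pos (by linarith [h5 a ha haS]) (lt_of_le_of_ne (h2 a ha haS) hne.symm)

end Pool.Agent.Helper272_BZ
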