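import Pool.Agent.Helper272_BZ.A
import Pool.Agent.TH84.HC.Cover

set_option autoImplicit false

/-!
# Illumination of bodies with many belt directions
-/

open Finset

namespace Pool.Agent.Helper272_BZ

open Pool.Agent.PZ871 (E)
open Pool.Agent.TH84.HC (CoveredBy sep_ray extreme_dom cover_of_illum)

variable {d : ℕ}

/-- `h` is a belt direction of `K`: at every extreme point `x` of `K`, the linear functionals which
attain their maximum over `K` at `x` are all nonnegative at `h` or all nonpositive at `h`. -/
def Belt (K : Set (E d)) (h : E d) : Prop :=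
  ∀ x ∈ Set.extremePoints ℝ K,
    (∀ f : E d →L[ℝ] ℝ, (∀ y ∈ K, f y ≤ f x) → 0 ≤ f h) ∨
    (∀ f : E d →L[ℝ] ℝ, (∀ y ∈ K, f y ≤ f x) → f h ≤ 0)

section
variable {J : Type*} [Fintype J] [DecidableEq J]

/-- the block of `j` -/
def block (p : Fin d → J) (j : J) : Finset (Fin d) := univ.filter fun i => p i = j

/-- the block of `j` together with one more index -/
def ground (p : Fin d → J) (j : J) : Finset (Option (Fin d)) := insertNone (block p j)

/-- the values of a functional at the vectors of the circuit of `j` (with sum zero) -/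
noncomputable def val (p : Fin d → J) (b : Fin d → E d) (f : E d →L[ℝ] ℝ) (j : J) :
    Option (Fin d) → ℝ
  | none => - f (∑ i ∈ block p j, b i)
  | some i => f (b i)

omit [Fintype J] in
theorem val_sum (p : Fin d → J) (b : Fin d → E d) (f : E d →L[ℝ] ℝ) (j : J) :
    ∑ a ∈ ground p j, val p b f j a = 0 := by
  unfold ground
  rw [Finset.sum_insertNone]
  simp only [val, map_sum]
  ring

/-- the directions -/
noncomputable def dir (p : Fin d → J) (b : Fin d → E d)
    (m : J → Finset (Option (Fin d)) → Finset (Option (Fin d)))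
    (M : J → Finset (Option (Fin d))) : E d :=
  ∑ i, ((cnt (ground p (p i)) (m (p i)) (M (p i)) (some i) : ℝ) -
    cnt (ground p (p i)) (m (p i)) (M (p i)) none) • b i

theorem dir_val (p : Fin d → J) (b : Fin d → E d)
    (m : J → Finset (Option (Fin d)) → Finset (Option (Fin d)))
    (M : J → Finset (Option (Fin d))) (f : E d →L[ℝ] ℝ) :
    f (dir p b m M) = ∑ j, ∑ a ∈ ground p j, (cnt (ground p j) (m j) (M j) a : ℝ) * val p b f j a := by
  unfold dir
  rw [map_sum, ← Finset.sum_fiberwise univ p]
  apply Finset.sum_congr rfl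
  intro j _
  unfold ground
  rw [Finset.sum_insertNone]
  simp only [val, map_sum, map_smul, smul_eq_mul]
  have h1 : ∑ i ∈ univ.filter (fun i => p i = j),
      ((cnt (insertNone (block p (p i))) (m (p i)) (M (p i)) (some i) : ℝ) -
        cnt (insertNone (block p (p i))) (m (p i)) (M (p i)) none) * f (b i) =
      ∑ i ∈ block p j, ((cnt (insertNone (block p j)) (m j) (M j) (some i) : ℝ) -
        cnt (insertNone (block p j)) (m j) (M j) none) * f (b i) := by
    apply Finset.sum_congr rfl
    intro i hi
    rw [(mem_filter.1 hi).2]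
  rw [h1]
  simp only [sub_mul, sum_sub_distrib, ← mul_sum]
  ring

/-- The number of directions. -/
def bound (p : Fin d → J) : ℕ := ∏ j, ((block p j).card + 1).choose (((block p j).card + 1) / 2)

theorem upper (p : Fin d → J) (b : Module.Basis (Fin d) ℝ (E d)) {K : Set (E d)}
    (hK : Convex ℝ K) (hc : IsCompact K) (hi : (interior K).Nonempty)
    (hb : ∀ i, Belt K (b i)) (hg : ∀ j, Belt K (∑ i ∈ block p j, b i)) :
    CoveredBy ((bound p : ℕ) : ℝ) K := by
  classical
  choose m hm1 hm2 using fun j => exists_mid (ground p j)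
  set U : Finset (E d) := (Fintype.piFinset fun j =>
    powersetCard ((ground p j).card / 2) (ground p j)).image (dir p b m) with hU
  have hUcard : U.card ≤ bound p := by
    refine card_image_le.trans (le_of_eq ?_)
    rw [Fintype.card_piFinset]
    unfold bound
    apply Finset.prod_congr rfl
    intro j _
    rw [card_powersetCard]
    unfold ground
    rw [card_insertNone]
  have hUne : U.Nonempty := by
    refine ⟨dir p b m fun j => m j ∅, mem_image_of_mem _ ?_⟩
    rw [Fintype.mem_piFinset]
    intro j
    exact hm1 j ∅ (empty_subset _)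
  obtain ⟨T, hT, hcov⟩ := cover_of_illum hK hc U hUne (by
    intro x hx
    obtain ⟨v, hv, hdom⟩ := extreme_dom hK hc hi hx
    have hvK : v ∈ K := hv.1
    -- the signs at the extreme point `v`
    let S : J → Finset (Option (Fin d)) := fun j => (ground p j).filter fun a =>
      ∀ f : E d →L[ℝ] ℝ, (∀ y ∈ K, f y ≤ f v) → val p b f j a ≤ 0
    have hS : ∀ j, S j ⊆ ground p j := fun j => filter_subset _ _
    have hSn : ∀ j, ∀ a ∈ ground p j, a ∉ S j → ∀ f : E d →L[ℝ] ℝ, (∀ y ∈ K, f y ≤ f v) →
        0 ≤ val p b f j a := by
      intro j a ha haS f hf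
      have h1 : ¬ ∀ f : E d →L[ℝ] ℝ, (∀ y ∈ K, f y ≤ f v) → val p b f j a ≤ 0 :=
        fun h => haS (mem_filter.2 ⟨ha, h⟩)
      cases a with
      | none =>
        rcases hg j v hv with h | h
        · exfalso
          apply h1
          intro f hf
          simp only [val]
          linarith [h f hf]
        · simp only [val]
          linarith [h f hf]
      | some i =>
        rcases hb i v hv with h | h
        · exact h f hf
        · exact absurd h h1
    refine ⟨dir p b m fun j => m j (S j), mem_image_of_mem _ ?_, hdom _ ?_⟩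
    · rw [Fintype.mem_piFinset]
      intro j
      exact hm1 j (S j) (hS j)
    · by_contra hcon
      push Not at hcon
      obtain ⟨f, hf1, hf2, hf3⟩ := sep_ray hK hi hvK _ hcon
      have h1 : ∀ j, _ := fun j => pairing (hm2 j) (hS j) (val_sum p b f j)
        (fun a ha => (mem_filter.1 ha).2 f hf2) (fun a ha haS => hSn j a ha haS f hf2)
      -- some value is not zero
      obtain ⟨i, hi0⟩ : ∃ i, f (b i) ≠ 0 := by
        by_contra hall
        push Not at hall
        have hf0 : (f : E d →ₗ[ℝ] ℝ) = 0 := b.ext fun i => by simpa using hall i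
        obtain ⟨z, hz⟩ := hi
        have h2 := hf1 z hz
        have h3 : ∀ y, f y = 0 := fun y => by
          have := congrArg (fun g : E d →ₗ[ℝ] ℝ => g y) hf0
          simpa using this
        rw [h3, h3] at h2
        exact lt_irrefl _ h2
      have h2 : f (dir p b m fun j => m j (S j)) < 0 := by
        rw [dir_val]
        apply Finset.sum_neg' (fun j _ => (h1 j).1)
        refine ⟨p i, mem_univ _, (h1 (p i)).2 ⟨some i, ?_, hi0⟩⟩
        unfold ground
        rw [some_mem_insertNone]
        exact mem_filter.2 ⟨mem_univ _, rfl⟩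
      linarith)
  refine ⟨T, hT.trans ?_, hcov⟩
  exact_mod_cast hUcard

end

end Pool.Agent.Helper272_BZ
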