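import Pool.Agent.Helper272_BZ.B
import Pool.Agent.Helper272_FD.D

set_option autoImplicit false

/-!
# The zonotopes of disjoint circuits
-/

open Finset

namespace Pool.Agent.Helper272_BZ

open Pool.Agent.PZ871 (E)
open Pool.Agent.TH84.HC (CoveredBy)
open Pool.Agent.Helper272_FD (strict_int)

variable {d : ℕ}

/-- If `K` is the sum of a segment with direction `h` and another set then `h` is a belt direction. -/
theorem belt_of_segment {K : Set (E d)} {h : E d} (H : ∀ x ∈ K, ∃ (y : E d) (τ : ℝ), τ ≤ 1 ∧
    x = y + τ • h ∧ y ∈ K ∧ y + h ∈ K) : Belt K h := by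
  intro x hx
  obtain ⟨y, τ, hτ, hxy, hy, hyh⟩ := H x hx.1
  rcases lt_or_eq_of_le hτ with h1 | h1
  · right
    intro f hf
    have h2 := hf _ hyh
    rw [hxy, map_add, map_add, map_smul, smul_eq_mul] at h2
    nlinarith
  · left
    intro f hf
    have h2 := hf _ hy
    rw [hxy, map_add, map_smul, smul_eq_mul, h1] at h2
    linarith

/-- If every extreme point of `K` can be moved within `K` in the direction `h` or `-h` then `h` is a
belt direction. -/
theorem belt_of_move {K : Set (E d)} {h : E d}
    (H : ∀ x ∈ Set.extremePoints ℝ K, ∃ t : ℝ, 0 < t ∧ (x + t • h ∈ K ∨ x - t • h ∈ K)) :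
    Belt K h := by
  intro x hx
  obtain ⟨t, ht, h1 | h1⟩ := H x hx
  · right
    intro f hf
    have h2 := hf _ h1
    rw [map_add, map_smul, smul_eq_mul] at h2
    nlinarith
  · left
    intro f hf
    have h2 := hf _ h1
    rw [map_sub, map_smul, smul_eq_mul] at h2
    nlinarith

variable {J : Type*} [Fintype J] [DecidableEq J]

/-- The sum of the segments `[0, b i]` and `[0, g j]`, where `g j` is the sum of the `b i` with
`p i = j`. -/
def zono (p : Fin d → J) (b : Fin d → E d) : Set (E d) :=
  {x | ∃ (t : Fin d → ℝ) (s : J → ℝ), (∀ i, t i ∈ Set.Icc (0:ℝ) 1) ∧ (∀ j, s j ∈ Set.Icc (0:ℝ) 1) ∧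
    x = ∑ i, t i • b i + ∑ j, s j • ∑ i ∈ block p j, b i}

theorem zono_eq (p : Fin d → J) (b : Fin d → E d) : zono p b =
    (fun q : (Fin d → ℝ) × (J → ℝ) => ∑ i, q.1 i • b i + ∑ j, q.2 j • ∑ i ∈ block p j, b i) ''
      (Set.Icc 0 1 ×ˢ Set.Icc 0 1) := by
  ext x
  constructor
  · rintro ⟨t, s, ht, hs, rfl⟩
    exact ⟨(t, s), ⟨⟨fun i => (ht i).1, fun i => (ht i).2⟩, ⟨fun i => (hs i).1, fun i => (hs i).2⟩⟩, rfl⟩
  · rintro ⟨⟨t, s⟩, ⟨⟨h1, h2⟩, h3, h4⟩, rfl⟩
    exact ⟨t, s, fun i => ⟨h1 i, h2 i⟩, fun j => ⟨h3 j, h4 j⟩, rfl⟩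

theorem zono_compact (p : Fin d → J) (b : Fin d → E d) : IsCompact (zono p b) := by
  rw [zono_eq]
  apply (isCompact_Icc.prod isCompact_Icc).image
  fun_prop

theorem zono_convex (p : Fin d → J) (b : Fin d → E d) : Convex ℝ (zono p b) := by
  rintro _ ⟨t, s, ht, hs, rfl⟩ _ ⟨t', s', ht', hs', rfl⟩ α β hα hβ hαβ
  refine ⟨fun i => α * t i + β * t' i, fun j => α * s j + β * s' j, fun i => ?_, fun j => ?_, ?_⟩
  · obtain ⟨h1, h2⟩ := ht i
    obtain ⟨h3, h4⟩ := ht' i
    constructor
    · positivity
    · nlinarith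
  · obtain ⟨h1, h2⟩ := hs j
    obtain ⟨h3, h4⟩ := hs' j
    constructor
    · positivity
    · nlinarith
  · simp only [smul_add, Finset.smul_sum, add_smul, mul_smul, sum_add_distrib]
    abel

theorem zono_interior (p : Fin d → J) (b : Module.Basis (Fin d) ℝ (E d)) :
    (interior (zono p b)).Nonempty := by
  obtain ⟨x, hx⟩ := b.parallelepiped.interior_nonempty'
  refine ⟨x, interior_mono ?_ hx⟩
  intro y hy
  have hy2 : y ∈ parallelepiped (b : Fin d → E d) := by
    rw [← Module.Basis.coe_parallelepiped]; exact hy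
  rw [mem_parallelepiped_iff] at hy2
  obtain ⟨t, ht, rfl⟩ := hy2
  exact ⟨t, fun _ => 0, fun i => ⟨ht.1 i, ht.2 i⟩, fun _ => ⟨le_rfl, zero_le_one⟩, by simp⟩

theorem zono_belt (p : Fin d → J) (b : Fin d → E d) (i : Fin d) : Belt (zono p b) (b i) := by
  classical
  apply belt_of_segment
  rintro _ ⟨t, s, ht, hs, rfl⟩
  have key : ∀ c : ℝ, ∑ k, (Function.update t i c) k • b k = ∑ k, (Function.update t i 0) k • b k + c • b i := by
    intro c
    have h1 : ∀ c : ℝ, ∑ k, (Function.update t i c) k • b k =
        c • b i + ∑ k ∈ univ.erase i, t k • b k := by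
      intro c
      rw [← Finset.add_sum_erase _ _ (mem_univ i), Function.update_self]
      congr 1
      apply Finset.sum_congr rfl
      intro k hk
      rw [Function.update_of_ne (ne_of_mem_erase hk)]
    rw [h1 c, h1 0, zero_smul, zero_add, add_comm]
  refine ⟨∑ k, (Function.update t i 0) k • b k + ∑ j, s j • ∑ i ∈ block p j, b i, t i, (ht i).2, ?_,
    ⟨Function.update t i 0, s, fun k => ?_, hs, rfl⟩,
    ⟨Function.update t i 1, s, fun k => ?_, hs, ?_⟩⟩
  · have h2 := key (t i)
    rw [Function.update_eq_self] at h2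
    rw [h2]
    abel
  · by_cases hk : k = i
    · subst hk; rw [Function.update_self]; exact ⟨le_rfl, zero_le_one⟩
    · rw [Function.update_of_ne hk]; exact ht k
  · by_cases hk : k = i
    · subst hk; rw [Function.update_self]; exact ⟨zero_le_one, le_rfl⟩
    · rw [Function.update_of_ne hk]; exact ht k
  · rw [key 1, one_smul]
    abel

theorem zono_belt' (p : Fin d → J) (b : Fin d → E d) (j : J) :
    Belt (zono p b) (∑ i ∈ block p j, b i) := by
  classical
  apply belt_of_segment
  rintro _ ⟨t, s, ht, hs, rfl⟩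
  have key : ∀ c : ℝ, ∑ k, (Function.update s j c) k • ∑ i ∈ block p k, b i =
      ∑ k, (Function.update s j 0) k • ∑ i ∈ block p k, b i + c • ∑ i ∈ block p j, b i := by
    intro c
    have h1 : ∀ c : ℝ, ∑ k, (Function.update s j c) k • ∑ i ∈ block p k, b i =
        c • (∑ i ∈ block p j, b i) + ∑ k ∈ univ.erase j, s k • ∑ i ∈ block p k, b i := by
      intro c
      rw [← Finset.add_sum_erase _ _ (mem_univ j), Function.update_self]
      congr 1
      apply Finset.sum_congr rfl
      intro k hk
      rw [Function.update_of_ne (ne_of_mem_erase hk)]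
    rw [h1 c, h1 0, zero_smul, zero_add, add_comm]
  refine ⟨∑ k, t k • b k + ∑ k, (Function.update s j 0) k • ∑ i ∈ block p k, b i, s j, (hs j).2, ?_,
    ⟨t, Function.update s j 0, ht, fun k => ?_, rfl⟩,
    ⟨t, Function.update s j 1, ht, fun k => ?_, ?_⟩⟩
  · have h2 := key (s j)
    rw [Function.update_eq_self] at h2
    rw [h2]
    abel
  · by_cases hk : k = j
    · subst hk; rw [Function.update_self]; exact ⟨le_rfl, zero_le_one⟩
    · rw [Function.update_of_ne hk]; exact hs k
  · by_cases hk : k = j
    · subst hk; rw [Function.update_self]; exact ⟨zero_le_one, le_rfl⟩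
    · rw [Function.update_of_ne hk]; exact hs k
  · rw [key 1, one_smul]
    abel

/-- the coordinate functional -/
noncomputable def coo (b : Module.Basis (Fin d) ℝ (E d)) : Option (Fin d) → (E d →ₗ[ℝ] ℝ)
  | none => 0
  | some i => b.coord i

/-- the offset -/
def off {n : ℕ} : Option (Fin n) → ℝ
  | none => -1
  | some _ => 0

theorem coord_sum (p : Fin d → J) (b : Module.Basis (Fin d) ℝ (E d)) (t : Fin d → ℝ) (s : J → ℝ)
    (i : Fin d) : b.coord i (∑ i, t i • b i + ∑ j, s j • ∑ i ∈ block p j, b i) = t i + s (p i) := by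
  classical
  rw [map_add, map_sum, map_sum]
  congr 1
  · rw [Finset.sum_eq_single i]
    · simp
    · intro k _ hk
      simp [hk]
    · simp
  · rw [Finset.sum_eq_single (p i)]
    · rw [map_smul, map_sum, Finset.sum_eq_single i]
      · simp
      · intro k _ hk
        simp [hk]
      · intro h
        exact absurd (show i ∈ block p (p i) from mem_filter.2 ⟨mem_univ _, rfl⟩) h
    · intro j _ hj
      rw [map_smul, map_sum, Finset.sum_eq_zero, smul_zero]
      intro k hk
      have : k ≠ i := by
        rintro rfl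
        exact hj (mem_filter.1 hk).2.symm
      simp [this]
    · simp

/-- the values of the coordinates, up to a common term -/
theorem coo_val (p : Fin d → J) (b : Module.Basis (Fin d) ℝ (E d)) (t : Fin d → ℝ) (s : J → ℝ)
    (j : J) (a : Option (Fin d)) (ha : a ∈ ground p j) :
    coo b a (∑ i, t i • b i + ∑ j, s j • ∑ i ∈ block p j, b i) =
      s j + (a.elim (-s j) t) := by
  cases a with
  | none => simp [coo]
  | some i =>
    unfold ground at ha
    rw [some_mem_insertNone] at ha
    have : p i = j := (mem_filter.1 ha).2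
    simp only [coo, coord_sum, Option.elim, this]
    ring

/-- the vertex with the index `M` -/
noncomputable def vert (p : Fin d → J) (b : Fin d → E d) (M : J → Finset (Option (Fin d))) : E d := by
  classical
  exact ∑ i, (if some i ∈ M (p i) then (1:ℝ) else 0) • b i +
    ∑ j, (if none ∈ M j then (0:ℝ) else 1) • ∑ i ∈ block p j, b i

theorem vert_mem (p : Fin d → J) (b : Fin d → E d) (M : J → Finset (Option (Fin d))) :
    vert p b M ∈ zono p b := by
  classical
  refine ⟨_, _, fun i => ?_, fun j => ?_, rfl⟩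
  · split_ifs
    · exact ⟨zero_le_one, le_rfl⟩
    · exact ⟨le_rfl, zero_le_one⟩
  · split_ifs
    · exact ⟨le_rfl, zero_le_one⟩
    · exact ⟨zero_le_one, le_rfl⟩

theorem lower (p : Fin d → J) (b : Module.Basis (Fin d) ℝ (E d)) (T : Finset (E d))
    (hT : zono p b ⊆ ⋃ t ∈ T, (fun x => t + x) '' interior (zono p b)) : bound p ≤ T.card := by
  classical
  have h1 : ∀ M : J → Finset (Option (Fin d)), ∃ t ∈ T, ∃ z ∈ interior (zono p b),
      t + z = vert p b M := by
    intro M
    obtain ⟨t, ht, z, hz, h⟩ := Set.mem_iUnion₂.1 (hT (vert_mem p b M))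
    exact ⟨t, ht, z, hz, h⟩
  choose τ hτ z hz hτz using h1
  have hcard : bound p = (Fintype.piFinset fun j =>
      powersetCard ((ground p j).card / 2) (ground p j)).card := by
    rw [Fintype.card_piFinset]
    unfold bound
    apply Finset.prod_congr rfl
    intro j _
    rw [card_powersetCard]
    unfold ground
    rw [card_insertNone]
  rw [hcard]
  apply Finset.card_le_card_of_injOn τ
  · intro M _
    exact hτ M
  · intro M hM M' hM' hMM'
    rw [Finset.mem_coe, Fintype.mem_piFinset] at hM hM'
    by_contra hne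
    obtain ⟨j, hj⟩ := Function.ne_iff.1 hne
    obtain ⟨hMj, hMc⟩ := mem_powersetCard.1 (hM j)
    obtain ⟨hMj', hMc'⟩ := mem_powersetCard.1 (hM' j)
    obtain ⟨a, ha, ha'⟩ : ∃ a ∈ M j, a ∉ M' j := by
      by_contra hcon
      push Not at hcon
      exact hj (eq_of_subset_of_card_le hcon (by rw [hMc, hMc']))
    obtain ⟨c, hc, hc'⟩ : ∃ c ∈ M' j, c ∉ M j := by
      by_contra hcon
      push Not at hcon
      exact hj (eq_of_subset_of_card_le hcon (by rw [hMc, hMc'])).symm
    set φ : E d →L[ℝ] ℝ := LinearMap.toContinuousLinearMap (coo b a - coo b c) with hφ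
    have hval : ∀ x, φ x = coo b a x - coo b c x := fun x => rfl
    have hga := hMj ha
    have hgc := hMj' hc
    -- bounds on `Z`
    have hel : ∀ (t : Fin d → ℝ) (s : J → ℝ), (∀ i, t i ∈ Set.Icc (0:ℝ) 1) →
        (∀ j, s j ∈ Set.Icc (0:ℝ) 1) → ∀ e : Option (Fin d),
          off e ≤ e.elim (-s j) t ∧ e.elim (-s j) t ≤ off e + 1 := by
      intro t s ht hs e
      cases e with
      | none =>
        simp only [off, Option.elim]
        have h2 := hs j
        constructor
        · linarith [h2.2]
        · linarith [h2.1]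
      | some i =>
        simp only [off, Option.elim]
        have h2 := ht i
        constructor
        · exact h2.1
        · linarith [h2.2]
    have hup : ∀ x ∈ zono p b, φ x ≤ off a - off c + 1 := by
      rintro _ ⟨t, s, ht, hs, rfl⟩
      rw [hval, coo_val p b t s j a hga, coo_val p b t s j c hgc]
      linarith [(hel t s ht hs a).2, (hel t s ht hs c).1]
    have hlo : ∀ x ∈ zono p b, (-φ) x ≤ -(off a - off c - 1) := by
      rintro _ ⟨t, s, ht, hs, rfl⟩
      rw [neg_apply, hval, coo_val p b t s j a hga, coo_val p b t s j c hgc]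
      linarith [(hel t s ht hs a).1, (hel t s ht hs c).2]
    -- values at the vertices
    have hv : ∀ (M : J → Finset (Option (Fin d))) (e : Option (Fin d)), e ∈ ground p j →
        coo b e (vert p b M) = (if none ∈ M j then (0:ℝ) else 1) + off e +
          (if e ∈ M j then 1 else 0) := by
      intro M e he
      unfold vert
      rw [coo_val p b _ _ j e he]
      cases e with
      | none =>
        simp only [Option.elim, off]
        split_ifs <;> norm_num
      | some i =>
        have hi : p i = j := by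
          unfold ground at he
          rw [some_mem_insertNone] at he
          exact (mem_filter.1 he).2
        simp only [Option.elim, off, hi]
        ring
    have h2 : φ (vert p b M) = off a - off c + 1 := by
      rw [hval, hv M a hga, hv M c hgc, if_pos ha, if_neg hc']
      ring
    have h3 : φ (vert p b M') = off a - off c - 1 := by
      rw [hval, hv M' a hga, hv M' c hgc, if_neg ha', if_pos hc]
      ring
    have hφ0 : φ ≠ 0 := by
      intro h
      rw [h] at h2 h3
      simp only [zero_apply] at h2 h3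
      linarith
    have h4 := strict_int φ hφ0 hup (hz M)
    have h5 := strict_int (-φ) (neg_ne_zero.2 hφ0) hlo (hz M')
    rw [neg_apply] at h5
    have h6 : φ (vert p b M) = φ (τ M) + φ (z M) := by rw [← hτz M, map_add]
    have h7 : φ (vert p b M') = φ (τ M') + φ (z M') := by rw [← hτz M', map_add]
    rw [← hMM'] at h7
    linarith

end Pool.Agent.Helper272_BZ
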