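import Pool.Agent.Helper272_BZ.B

set_option autoImplicit false

/-!
# Illumination of bodies with many belt directions: circuits over a flag
-/

open Finset

namespace Pool.Agent.Helper272_BZ

open Pool.Agent.PZ871 (E)
open Pool.Agent.TH84.HC (CoveredBy sep_ray extreme_dom cover_of_illum)

theorem cnt_le {α : Type*} [DecidableEq α] (G : Finset α) (m : Finset α → Finset α) (M : Finset α)
    (a : α) : cnt G m M a ≤ 2 ^ G.card := by
  unfold cnt
  refine (card_filter_le _ _).trans (le_of_eq ?_)
  rw [card_powerset]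

/-- the pairing with the numbers `cnt` if the sum is not zero -/
theorem pairing_le {α : Type*} [DecidableEq α] {G : Finset α} {m : Finset α → Finset α}
    (hm : ∀ A ⊆ G, ∀ B ⊆ G, m A = m B → A ⊆ B ∨ B ⊆ A) {S : Finset α} (hS : S ⊆ G) {Y : α → ℝ}
    (h1 : ∀ a ∈ S, Y a ≤ 0) (h2 : ∀ a ∈ G, a ∉ S → 0 ≤ Y a) :
    ∑ a ∈ G, (cnt G m (m S) a : ℝ) * Y a ≤
      -(1 / 2) * ∑ a ∈ G, |Y a| + (2 ^ G.card + 1) * |∑ a ∈ G, Y a| := by
  set θ : ℝ := ((G \ S).sup (cnt G m (m S)) : ℕ) + 1 / 2 with hθ
  have h0 : 0 ≤ θ := by positivity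
  have hθ2 : θ ≤ 2 ^ G.card + 1 := by
    have h3 : (G \ S).sup (cnt G m (m S)) ≤ 2 ^ G.card := Finset.sup_le fun a _ => cnt_le _ _ _ _
    have h4 : (((G \ S).sup (cnt G m (m S)) : ℕ) : ℝ) ≤ 2 ^ G.card := by exact_mod_cast h3
    rw [hθ]
    linarith
  have h3 : ∑ a ∈ G, (cnt G m (m S) a : ℝ) * Y a =
      ∑ a ∈ G, ((cnt G m (m S) a : ℝ) - θ) * Y a + θ * ∑ a ∈ G, Y a := by
    simp only [sub_mul, sum_sub_distrib, ← mul_sum]
    ring
  have h4 : ∀ a ∈ S, θ + 1 / 2 ≤ cnt G m (m S) a := by
    intro a ha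
    have h5 : (G \ S).sup (cnt G m (m S)) < cnt G m (m S) a := by
      rw [Finset.sup_lt_iff (by exact cnt_pos hS ha)]
      intro i hi
      exact cnt_lt hm hS (mem_sdiff.1 hi).2 ha
    have h6 : (((G \ S).sup (cnt G m (m S)) : ℕ) : ℝ) + 1 ≤ cnt G m (m S) a := by exact_mod_cast h5
    rw [hθ]
    linarith
  have h5 : ∀ a ∈ G, a ∉ S → (cnt G m (m S) a : ℝ) ≤ θ - 1 / 2 := by
    intro a ha haS
    have h6 : cnt G m (m S) a ≤ (G \ S).sup (cnt G m (m S)) :=
      Finset.le_sup (f := cnt G m (m S)) (mem_sdiff.2 ⟨ha, haS⟩)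
    have h7 : (cnt G m (m S) a : ℝ) ≤ (((G \ S).sup (cnt G m (m S)) : ℕ) : ℝ) := by exact_mod_cast h6
    rw [hθ]
    linarith
  have h6 : ∀ a ∈ G, ((cnt G m (m S) a : ℝ) - θ) * Y a ≤ -(1 / 2) * |Y a| := by
    intro a ha
    by_cases haS : a ∈ S
    · rw [abs_of_nonpos (h1 a haS)]
      nlinarith [h4 a haS, h1 a haS]
    · rw [abs_of_nonneg (h2 a ha haS)]
      nlinarith [h5 a ha haS, h2 a ha haS]
  have h7 := Finset.sum_le_sum h6
  rw [← mul_sum] at h7
  have h8 : θ * ∑ a ∈ G, Y a ≤ (2 ^ G.card + 1) * |∑ a ∈ G, Y a| :=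
    (mul_le_mul_of_nonneg_left (le_abs_self _) h0).trans
      (mul_le_mul_of_nonneg_right hθ2 (abs_nonneg _))
  rw [h3]
  linarith

variable {d m : ℕ}

/-- the last vector of the circuit of the block `j` over the earlier blocks -/
noncomputable def last (p : Fin d → Fin m) (b : Fin d → E d) (η : Fin m → Fin d → ℝ) (j : Fin m) :
    E d := ∑ i ∈ block p j, b i + ∑ i ∈ univ.filter fun i => p i < j, η j i • b i

/-- the values of a functional at the vectors of the circuit of `j` -/
noncomputable def val' (p : Fin d → Fin m) (b : Fin d → E d) (η : Fin m → Fin d → ℝ)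
    (f : E d →L[ℝ] ℝ) (j : Fin m) : Option (Fin d) → ℝ
  | none => - f (last p b η j)
  | some i => f (b i)

theorem val_sum' (p : Fin d → Fin m) (b : Fin d → E d) (η : Fin m → Fin d → ℝ) (f : E d →L[ℝ] ℝ)
    (j : Fin m) : ∑ a ∈ ground p j, val' p b η f j a =
      - ∑ i ∈ univ.filter fun i => p i < j, η j i * f (b i) := by
  unfold ground
  rw [Finset.sum_insertNone]
  simp only [val', last, map_add, map_sum, map_smul, smul_eq_mul]
  ring

/-- the directions -/
noncomputable def dir' (p : Fin d → Fin m) (b : Fin d → E d) (η : Fin m → Fin d → ℝ) (ε : ℝ)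
    (μ : Fin m → Finset (Option (Fin d)) → Finset (Option (Fin d)))
    (M : Fin m → Finset (Option (Fin d))) : E d :=
  ∑ j : Fin m, ε ^ (j : ℕ) • (∑ i ∈ block p j, (cnt (ground p j) (μ j) (M j) (some i) : ℝ) • b i -
    (cnt (ground p j) (μ j) (M j) none : ℝ) • last p b η j)

theorem dir_val' (p : Fin d → Fin m) (b : Fin d → E d) (η : Fin m → Fin d → ℝ) (ε : ℝ)
    (μ : Fin m → Finset (Option (Fin d)) → Finset (Option (Fin d)))
    (M : Fin m → Finset (Option (Fin d))) (f : E d →L[ℝ] ℝ) :
    f (dir' p b η ε μ M) = ∑ j : Fin m, ε ^ (j : ℕ) *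
      ∑ a ∈ ground p j, (cnt (ground p j) (μ j) (M j) a : ℝ) * val' p b η f j a := by
  unfold dir'
  rw [map_sum]
  apply Finset.sum_congr rfl
  intro j _
  rw [map_smul, smul_eq_mul]
  congr 1
  unfold ground
  rw [Finset.sum_insertNone]
  simp only [val', map_sub, map_sum, map_smul, smul_eq_mul]
  ring

theorem upper' (p : Fin d → Fin m) (b : Module.Basis (Fin d) ℝ (E d)) (η : Fin m → Fin d → ℝ)
    {K : Set (E d)} (hK : Convex ℝ K) (hc : IsCompact K) (hi : (interior K).Nonempty)
    (hb : ∀ i, Belt K (b i)) (hg : ∀ j, Belt K (last p b η j)) :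
    CoveredBy ((bound p : ℕ) : ℝ) K := by
  classical
  choose μ hμ1 hμ2 using fun j => exists_mid (ground p j)
  -- constants
  obtain ⟨H, hH0, hH⟩ : ∃ H : ℝ, 0 ≤ H ∧ ∀ j i, |η j i| ≤ H := by
    refine ⟨∑ j, ∑ i, |η j i|, sum_nonneg fun j _ => sum_nonneg fun i _ => abs_nonneg _, ?_⟩
    intro j i
    calc |η j i| ≤ ∑ i, |η j i| :=
          Finset.single_le_sum (f := fun i => |η j i|) (fun i _ => abs_nonneg _) (mem_univ i)
      _ ≤ ∑ j, ∑ i, |η j i| := Finset.single_le_sum (f := fun j => ∑ i, |η j i|)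
          (fun j _ => sum_nonneg fun i _ => abs_nonneg _) (mem_univ j)
  set C : ℝ := (2 ^ (d + 1) + 1) * H with hC
  have hC0 : 0 ≤ C := by positivity
  set ε : ℝ := 1 / (2 * (C * m + 1)) with hε
  have hε0 : 0 < ε := by positivity
  have hε1 : ε ≤ 1 := by
    rw [hε, div_le_one (by positivity)]
    nlinarith [mul_nonneg hC0 (Nat.cast_nonneg (α := ℝ) m)]
  have hCε : C * m * ε < 1 / 2 := by
    rw [hε, mul_one_div, div_lt_div_iff₀ (by positivity) (by norm_num)]
    nlinarith [mul_nonneg hC0 (Nat.cast_nonneg (α := ℝ) m)]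
  set U : Finset (E d) := (Fintype.piFinset fun j =>
    powersetCard ((ground p j).card / 2) (ground p j)).image (dir' p b η ε μ) with hU
  have hUcard : U.card ≤ bound p := by
    refine card_image_le.trans (le_of_eq ?_)
    rw [Fintype.card_piFinset]
    unfold bound
    apply Finset.prod_congr rfl
    intro j _
    rw [card_powersetCard]
    unfold ground
    rw [card_insertNone]
  have hUne : U.Nonempty := by
    refine ⟨dir' p b η ε μ fun j => μ j ∅, mem_image_of_mem _ ?_⟩
    rw [Fintype.mem_piFinset]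
    intro j
    exact hμ1 j ∅ (empty_subset _)
  have hgcard : ∀ j, (ground p j).card ≤ d + 1 := by
    intro j
    unfold ground
    rw [card_insertNone]
    have := card_le_univ (block p j)
    rw [Fintype.card_fin] at this
    omega
  obtain ⟨T, hT, hcov⟩ := cover_of_illum hK hc U hUne (by
    intro x hx
    obtain ⟨v, hv, hdom⟩ := extreme_dom hK hc hi hx
    have hvK : v ∈ K := hv.1
    -- the signs at the extreme point `v`
    let S : Fin m → Finset (Option (Fin d)) := fun j => (ground p j).filter fun a =>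
      ∀ f : E d →L[ℝ] ℝ, (∀ y ∈ K, f y ≤ f v) → val' p b η f j a ≤ 0
    have hS : ∀ j, S j ⊆ ground p j := fun j => filter_subset _ _
    have hSn : ∀ j, ∀ a ∈ ground p j, a ∉ S j → ∀ f : E d →L[ℝ] ℝ, (∀ y ∈ K, f y ≤ f v) →
        0 ≤ val' p b η f j a := by
      intro j a ha haS f hf
      have h1 : ¬ ∀ f : E d →L[ℝ] ℝ, (∀ y ∈ K, f y ≤ f v) → val' p b η f j a ≤ 0 :=
        fun h => haS (mem_filter.2 ⟨ha, h⟩)
      cases a with
      | none =>
        rcases hg j v hv with h | h
        · exfalso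
          apply h1
          intro f hf
          simp only [val']
          linarith [h f hf]
        · simp only [val']
          linarith [h f hf]
      | some i =>
        rcases hb i v hv with h | h
        · exact h f hf
        · exact absurd h h1
    refine ⟨dir' p b η ε μ fun j => μ j (S j), mem_image_of_mem _ ?_, hdom _ ?_⟩
    · rw [Fintype.mem_piFinset]
      intro j
      exact hμ1 j (S j) (hS j)
    · by_contra hcon
      push Not at hcon
      obtain ⟨f, hf1, hf2, hf3⟩ := sep_ray hK hi hvK _ hcon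
      -- the estimate for one block
      have h1 : ∀ j, ∑ a ∈ ground p j,
          (cnt (ground p j) (μ j) (μ j (S j)) a : ℝ) * val' p b η f j a ≤
          -(1 / 2) * ∑ i ∈ block p j, |f (b i)| +
            C * ∑ i ∈ univ.filter (fun i => p i < j), |f (b i)| := by
        intro j
        have h2 := pairing_le (hμ2 j) (hS j) (Y := val' p b η f j)
          (fun a ha => (mem_filter.1 ha).2 f hf2) (fun a ha haS => hSn j a ha haS f hf2)
        have h3 : ∑ i ∈ block p j, |f (b i)| ≤ ∑ a ∈ ground p j, |val' p b η f j a| := by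
          unfold ground
          rw [Finset.sum_insertNone]
          simp only [val']
          linarith [abs_nonneg (-f (last p b η j))]
        have h4 : |∑ a ∈ ground p j, val' p b η f j a| ≤
            H * ∑ i ∈ univ.filter (fun i => p i < j), |f (b i)| := by
          rw [val_sum', abs_neg, mul_sum]
          refine (abs_sum_le_sum_abs _ _).trans (sum_le_sum fun i _ => ?_)
          rw [abs_mul]
          exact mul_le_mul_of_nonneg_right (hH j i) (abs_nonneg _)
        have h5 : (2 ^ (ground p j).card + 1) * |∑ a ∈ ground p j, val' p b η f j a| ≤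
            C * ∑ i ∈ univ.filter (fun i => p i < j), |f (b i)| := by
          have h6 : (2 : ℝ) ^ (ground p j).card + 1 ≤ 2 ^ (d + 1) + 1 := by
            have := pow_le_pow_right₀ (one_le_two (α := ℝ)) (hgcard j)
            linarith
          calc (2 ^ (ground p j).card + 1) * |∑ a ∈ ground p j, val' p b η f j a|
              ≤ (2 ^ (d + 1) + 1) * |∑ a ∈ ground p j, val' p b η f j a| :=
                mul_le_mul_of_nonneg_right h6 (abs_nonneg _)
            _ ≤ (2 ^ (d + 1) + 1) * (H * ∑ i ∈ univ.filter (fun i => p i < j), |f (b i)|) :=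
                mul_le_mul_of_nonneg_left h4 (by positivity)
            _ = C * ∑ i ∈ univ.filter (fun i => p i < j), |f (b i)| := by rw [hC]; ring
        linarith
      -- some value is not zero
      obtain ⟨i, hi0⟩ : ∃ i, f (b i) ≠ 0 := by
        by_contra hall
        push Not at hall
        have hf0 : (f : E d →ₗ[ℝ] ℝ) = 0 := b.ext fun i => by simpa using hall i
        obtain ⟨z, hz⟩ := hi
        have h2 := hf1 z hz
        have h3 : ∀ y, f y = 0 := fun y => by
          have := congrArg (fun g : E d →ₗ[ℝ] ℝ => g y) hf0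
          simpa using this
        rw [h3, h3] at h2
        exact lt_irrefl _ h2
      have hW : 0 < ∑ i, ε ^ (p i : ℕ) * |f (b i)| := by
        apply Finset.sum_pos' (fun i _ => by positivity)
        exact ⟨i, mem_univ _, mul_pos (pow_pos hε0 _) (abs_pos.2 hi0)⟩
      have e1 : ∑ j : Fin m, ε ^ (j : ℕ) * ∑ i ∈ block p j, |f (b i)| = ∑ i, ε ^ (p i : ℕ) * |f (b i)| := by
        rw [← Finset.sum_fiberwise univ p (fun i => ε ^ (p i : ℕ) * |f (b i)|)]
        apply Finset.sum_congr rfl
        intro j _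
        rw [mul_sum]
        apply Finset.sum_congr rfl
        intro i hi
        rw [(mem_filter.1 hi).2]
      have e2 : ∑ j : Fin m, ε ^ (j : ℕ) * ∑ i ∈ univ.filter (fun i => p i < j), |f (b i)| ≤
          m * ε * ∑ i, ε ^ (p i : ℕ) * |f (b i)| := by
        have e3 : ∀ j : Fin m, ε ^ (j : ℕ) * ∑ i ∈ univ.filter (fun i => p i < j), |f (b i)| ≤
            ε * ∑ i, ε ^ (p i : ℕ) * |f (b i)| := by
          intro j
          rw [mul_sum, mul_sum]
          calc ∑ i ∈ univ.filter (fun i => p i < j), ε ^ (j : ℕ) * |f (b i)|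
              ≤ ∑ i ∈ univ.filter (fun i => p i < j), ε * (ε ^ (p i : ℕ) * |f (b i)|) := by
                apply sum_le_sum
                intro i hi
                have hij : (p i : ℕ) + 1 ≤ j := (mem_filter.1 hi).2
                rw [← mul_assoc, ← pow_succ']
                exact mul_le_mul_of_nonneg_right (pow_le_pow_of_le_one hε0.le hε1 hij) (abs_nonneg _)
            _ ≤ ∑ i, ε * (ε ^ (p i : ℕ) * |f (b i)|) :=
                sum_le_sum_of_subset_of_nonneg (filter_subset _ _) fun i _ _ => by positivity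
        calc ∑ j : Fin m, ε ^ (j : ℕ) * ∑ i ∈ univ.filter (fun i => p i < j), |f (b i)|
            ≤ ∑ _j : Fin m, ε * ∑ i, ε ^ (p i : ℕ) * |f (b i)| := sum_le_sum fun j _ => e3 j
          _ = m * ε * ∑ i, ε ^ (p i : ℕ) * |f (b i)| := by
              rw [sum_const, card_univ, Fintype.card_fin, nsmul_eq_mul]
              ring
      have h2 : f (dir' p b η ε μ fun j => μ j (S j)) < 0 := by
        rw [dir_val']
        calc ∑ j : Fin m, ε ^ (j : ℕ) * ∑ a ∈ ground p j,
              (cnt (ground p j) (μ j) (μ j (S j)) a : ℝ) * val' p b η f j a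
            ≤ ∑ j : Fin m, ε ^ (j : ℕ) * (-(1 / 2) * ∑ i ∈ block p j, |f (b i)| +
                C * ∑ i ∈ univ.filter (fun i => p i < j), |f (b i)|) :=
              sum_le_sum fun j _ => mul_le_mul_of_nonneg_left (h1 j) (pow_nonneg hε0.le _)
          _ = -(1 / 2) * (∑ j : Fin m, ε ^ (j : ℕ) * ∑ i ∈ block p j, |f (b i)|) +
                C * ∑ j : Fin m, ε ^ (j : ℕ) * ∑ i ∈ univ.filter (fun i => p i < j), |f (b i)| := by
              rw [mul_sum, mul_sum, ← sum_add_distrib]
              apply sum_congr rfl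
              intro j _
              ring
          _ ≤ -(1 / 2) * (∑ i, ε ^ (p i : ℕ) * |f (b i)|) +
                C * (m * ε * ∑ i, ε ^ (p i : ℕ) * |f (b i)|) := by
              rw [e1]
              have := mul_le_mul_of_nonneg_left e2 hC0
              linarith
          _ = (C * m * ε - 1 / 2) * ∑ i, ε ^ (p i : ℕ) * |f (b i)| := by ring
          _ < 0 := mul_neg_of_neg_of_pos (by linarith) hW
      linarith)
  refine ⟨T, hT.trans ?_, hcov⟩
  exact_mod_cast hUcard

end Pool.Agent.Helper272_BZ
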